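import Pool.Agent.Lib.MP_f8e628_co.Final

open Filter Topology

namespace Pool.Agent.Results.MP_f8e628_co.AlonKimThree

universe u

/-- For every degree bound `t` there is an optimal number `K t` of colours. -/
theorem exists_bound : ∃ K : ℕ → ℕ,
    (∀ δ : ℝ, 0 < δ → ∀ᶠ t : ℕ in atTop, (K t : ℝ) ≤ (3 / 2 + δ) * t) ∧
    ∀ (t n : ℕ) (H : Finset (Finset (Fin n))), (∀ e ∈ H, e.card = 3) →
      (∀ v, (H.filter fun e => v ∈ e).card ≤ t) →
      ∃ c : Finset (Fin n) → Fin (K t), ∀ e ∈ H, ∀ f ∈ H, e ≠ f → c e = c f → Disjoint e f := by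
  classical
  let Good : ℕ → ℕ → Prop := fun t k => ∀ (n : ℕ) (H : Finset (Finset (Fin n))),
    (∀ e ∈ H, e.card = 3) → (∀ v, (H.filter fun e => v ∈ e).card ≤ t) →
      ∃ c : Finset (Fin n) → Fin k, ∀ e ∈ H, ∀ f ∈ H, e ≠ f → c e = c f → Disjoint e f
  have main : ∀ δ : ℝ, 0 < δ → ∃ T : ℕ, ∀ t, T ≤ t → ∀ s, s ≤ t →
      Good s ⌊(3 / 2 + δ) * (t : ℝ)⌋₊ := by
    intro δ hδ
    obtain ⟨T, hT⟩ := Pool.Agent.Lib.MP_f8e628_co.alon_kim_three δ hδ
    refine ⟨T, fun t ht s hs n H h3 hd => ?_⟩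
    obtain ⟨k, hk, c, hc⟩ := hT t ht (Fin n) H h3 fun v => (hd v).trans hs
    exact ⟨fun e => Fin.castLE (Nat.le_floor hk) (c e), fun e he f hf hef h =>
      hc e he f hf hef (Fin.castLE_injective _ h)⟩
  have ex : ∀ t, ∃ k, Good t k := by
    intro t
    obtain ⟨T, hT⟩ := main 1 one_pos
    exact ⟨_, hT (max T t) (le_max_left _ _) t (le_max_right _ _)⟩
  refine ⟨fun t => Nat.find (ex t), fun δ hδ => ?_, fun t => Nat.find_spec (ex t)⟩
  obtain ⟨T, hT⟩ := main δ hδ
  filter_upwards [eventually_ge_atTop T] with t ht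
  exact (Nat.cast_le.mpr (Nat.find_min' (ex t) (hT t ht t le_rfl))).trans
    (Nat.floor_le (by positivity))

/-- There is a function `ε t → 0` such that, for every `t`, the edge set `E` of every simple
3-uniform hypergraph all of whose degrees are at most `t` has a partition into at most
`(3 / 2 + ε t) * t` matchings. -/
theorem result : ∃ ε : ℕ → ℝ, Tendsto ε atTop (𝓝 0) ∧
    ∀ (t : ℕ) (V : Type u) [DecidableEq V] (E : Finset (Finset V)), (∀ e ∈ E, e.card = 3) →
      (∀ v : V, (E.filter fun e => v ∈ e).card ≤ t) →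
      ∃ P : Finpartition E, (P.parts.card : ℝ) ≤ (3 / 2 + ε t) * t ∧
        ∀ M ∈ P.parts, ∀ e ∈ M, ∀ f ∈ M, e ≠ f → Disjoint e f := by
  classical
  obtain ⟨K, hK, hc⟩ := exists_bound
  refine ⟨fun t => max 0 ((K t : ℝ) / t - 3 / 2), ?_, fun t V _ E h3 hd => ?_⟩
  · refine tendsto_order.mpr ⟨fun a ha => Eventually.of_forall fun t => lt_max_of_lt_left ha,
      fun a ha => ?_⟩
    filter_upwards [hK (a / 2) (half_pos ha), eventually_gt_atTop 0] with t ht h0
    have h1 : (K t : ℝ) / t ≤ 3 / 2 + a / 2 := (div_le_iff₀ (Nat.cast_pos.mpr h0)).mpr ht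
    exact max_lt ha (by linarith)
  obtain ⟨g, hg⟩ : ∃ g : Fin (E.biUnion id).card ↪ V, ∀ v ∈ E.biUnion id, ∃ i, g i = v :=
    ⟨(E.biUnion id).equivFin.symm.toEmbedding.trans (Function.Embedding.subtype _),
      fun v hv => ⟨(E.biUnion id).equivFin ⟨v, hv⟩, by simp⟩⟩
  obtain ⟨p, hp⟩ : ∃ p : Finset V → Finset (Fin (E.biUnion id).card),
      ∀ e i, i ∈ p e ↔ g i ∈ e := ⟨fun e => Finset.univ.filter fun i => g i ∈ e, by simp⟩
  have hpe : ∀ e ∈ E, (p e).map g = e := by
    intro e he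
    ext v
    rw [Finset.mem_map]
    refine ⟨fun ⟨i, hi, hv⟩ => hv ▸ (hp e i).mp hi, fun hv => ?_⟩
    obtain ⟨i, hi⟩ := hg v (Finset.mem_biUnion.mpr ⟨e, he, hv⟩)
    exact ⟨i, (hp e i).mpr (hi ▸ hv), hi⟩
  obtain ⟨c, hcol⟩ := hc t _ (E.image p)
    (fun e he => by
      obtain ⟨f, hf, rfl⟩ := Finset.mem_image.mp he
      rw [← Finset.card_map g, hpe f hf, h3 f hf])
    (fun i => by
      rw [Finset.filter_image]
      exact Finset.card_image_le.trans (by simpa only [hp] using hd (g i)))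
  refine ⟨Finpartition.ofExistsUnique
    ((E.image fun e => c (p e)).image fun j => E.filter fun e => c (p e) = j) ?_ ?_ ?_, ?_, ?_⟩
  · intro M hM
    obtain ⟨j, _, rfl⟩ := Finset.mem_image.mp hM
    exact Finset.filter_subset _ _
  · intro e he
    refine ⟨E.filter fun f => c (p f) = c (p e), ⟨Finset.mem_image_of_mem _
      (Finset.mem_image_of_mem _ he), Finset.mem_filter.mpr ⟨he, rfl⟩⟩, ?_⟩
    rintro M ⟨hM, heM⟩
    obtain ⟨j, _, rfl⟩ := Finset.mem_image.mp hM
    rw [(Finset.mem_filter.mp heM).2]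
  · intro hM
    obtain ⟨j, hj, h0⟩ := Finset.mem_image.mp hM
    obtain ⟨e, he, hej⟩ := Finset.mem_image.mp hj
    exact Finset.notMem_empty e (h0 ▸ Finset.mem_filter.mpr ⟨he, hej⟩)
  · rw [Finpartition.ofExistsUnique_parts]
    rcases Nat.eq_zero_or_pos t with rfl | h0
    · have hE : E = ∅ := by
        refine Finset.eq_empty_of_forall_notMem fun e he => ?_
        obtain ⟨v, hv⟩ := Finset.card_pos.mp (show 0 < e.card by rw [h3 e he]; omega)
        have h1 : 0 < (E.filter fun e => v ∈ e).card :=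
          Finset.card_pos.mpr ⟨e, Finset.mem_filter.mpr ⟨he, hv⟩⟩
        exact absurd (hd v) (by omega)
      subst hE
      simp
    · have h1 : ((E.image fun e => c (p e)).image fun j => E.filter fun e => c (p e) = j).card ≤
          K t := Finset.card_image_le.trans ((Finset.card_le_univ _).trans (Fintype.card_fin _).le)
      have h2 : (0 : ℝ) < t := Nat.cast_pos.mpr h0
      refine (Nat.cast_le.mpr h1).trans ((div_le_iff₀ h2).mp ?_)
      linarith [le_max_right 0 ((K t : ℝ) / t - 3 / 2)]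
  · intro M hM e he f hf hef
    rw [Finpartition.ofExistsUnique_parts] at hM
    obtain ⟨j, _, rfl⟩ := Finset.mem_image.mp hM
    obtain ⟨he1, he2⟩ := Finset.mem_filter.mp he
    obtain ⟨hf1, hf2⟩ := Finset.mem_filter.mp hf
    rw [← hpe e he1, ← hpe f hf1, Finset.disjoint_map]
    refine hcol _ (Finset.mem_image_of_mem _ he1) _ (Finset.mem_image_of_mem _ hf1)
      (fun h => hef ?_) (he2.trans hf2.symm)
    rw [← hpe e he1, ← hpe f hf1, h]

end Pool.Agent.Results.MP_f8e628_co.AlonKimThree
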