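import Pool.Agent.Lib.MP_f8e628_co.Ex.Final

/-! The chromatic index of a simple 3-uniform hypergraph is asymptotically equal to a density
parameter: the maximum degree or the largest density of edges meeting a vertex set twice. -/

namespace Pool.Agent.Results.MP_f8e628_co.AsymptoticIndex

open Pool.Agent.Lib.MP_f8e628_co

/-- The least number of matchings into which the edge set `E` can be partitioned. -/
noncomputable def chromaticIndex {V : Type} [DecidableEq V] (E : Finset (Finset V)) : ℕ :=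
  sInf {k : ℕ | ∃ P : Finpartition E, P.parts.card = k ∧
    ∀ M ∈ P.parts, ∀ e ∈ M, ∀ f ∈ M, e ≠ f → Disjoint e f}

/-- The least `t` such that every vertex lies in at most `t` edges and, for every vertex set `U`,
at most `t ⌊|U| / 2⌋` edges have two or more vertices in `U`. -/
noncomputable def density {V : Type} [DecidableEq V] (E : Finset (Finset V)) : ℕ :=
  sInf {t : ℕ | (∀ v : V, (E.filter fun e => v ∈ e).card ≤ t) ∧
    ∀ U : Finset V, (E.filter fun e => 2 ≤ (e ∩ U).card).card ≤ t * (U.card / 2)}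

theorem result (ε : ℝ) (hε : 0 < ε) : ∃ C : ℝ,
    ∀ (V : Type) [Fintype V] [DecidableEq V] (E : Finset (Finset V)), (∀ e ∈ E, e.card = 3) →
      density E ≤ chromaticIndex E ∧ (chromaticIndex E : ℝ) ≤ (1 + ε) * density E + C := by
  obtain ⟨C, hC⟩ := partition_of_density ε hε
  refine ⟨C, fun V _ _ E h3 => ?_⟩
  have h1 : {k : ℕ | ∃ P : Finpartition E, P.parts.card = k ∧
      ∀ M ∈ P.parts, ∀ e ∈ M, ∀ f ∈ M, e ≠ f → Disjoint e f}.Nonempty := by
    refine ⟨_, ⊥, rfl, fun M hM e he f hf hef => ?_⟩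
    obtain ⟨a, -, rfl⟩ := Finpartition.mem_bot_iff.mp hM
    exact absurd ((Finset.mem_singleton.mp he).trans (Finset.mem_singleton.mp hf).symm) hef
  obtain ⟨P, hP1, hP2⟩ := Nat.sInf_mem h1
  have h2 := density_of_partition P hP2
  rw [hP1] at h2
  refine ⟨Nat.sInf_le h2, ?_⟩
  obtain ⟨h4, h5⟩ : density E ∈ {t : ℕ | (∀ v : V, (E.filter fun e => v ∈ e).card ≤ t) ∧
      ∀ U : Finset V, (E.filter fun e => 2 ≤ (e ∩ U).card).card ≤ t * (U.card / 2)} :=
    Nat.sInf_mem ⟨_, h2⟩
  obtain ⟨Q, hQ1, hQ2⟩ := hC E _ h3 h4 h5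
  refine le_trans (Nat.cast_le.mpr (Nat.sInf_le ?_)) hQ1
  exact ⟨Q, rfl, hQ2⟩

/-- The density is at most `⌈3 t / 2⌉` if all degrees are at most `t`. -/
theorem density_le {V : Type} [DecidableEq V] (E : Finset (Finset V)) (t : ℕ)
    (hdeg : ∀ v : V, (E.filter fun e => v ∈ e).card ≤ t) : density E ≤ (3 * t + 1) / 2 :=
  Nat.sInf_le ⟨fun v => (hdeg v).trans (by omega), density_of_degree hdeg⟩

/-- The bound `(3 / 2 + ε) t + C` of the posed question follows. -/
theorem three_halves (ε : ℝ) (hε : 0 < ε) : ∃ C : ℝ,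
    ∀ (V : Type) [Fintype V] [DecidableEq V] (E : Finset (Finset V)) (t : ℕ),
      (∀ e ∈ E, e.card = 3) → (∀ v : V, (E.filter fun e => v ∈ e).card ≤ t) →
      (chromaticIndex E : ℝ) ≤ (3 / 2 + ε) * t + C := by
  obtain ⟨C, hC⟩ := result (2 * ε / 3) (by positivity)
  refine ⟨C + (1 + 2 * ε / 3), fun V _ _ E t h3 hdeg => (hC V E h3).2.trans ?_⟩
  have h1 : 2 * density E ≤ 3 * t + 1 := by
    have := density_le E t hdeg
    omega
  have h2 : 2 * (density E : ℝ) ≤ 3 * t + 1 := by exact_mod_cast h1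
  nlinarith

end Pool.Agent.Results.MP_f8e628_co.AsymptoticIndex
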